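import Pool.Agent.Q152.WP.KS2

/-!
# Groups with a normal restricted direct product of hyperbolic groups

`Closed C` (`Pool.Agent.Y462.SS.Base`): the class `C` of groups contains `ℤ` and is closed under
groups that embed, finite products, free products, overgroups of finite index and colimits of directed
systems.  `ExtClosed C`: if `G` maps onto a group `Q` of `C`, and the kernel and the preimages of all
infinite cyclic subgroups of `Q` are in `C`, then `G` is in `C`.  These properties are known for the
class of the groups which satisfy the K- and L-theoretic Farrell–Jones conjecture with coefficients
and finite wreath products.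

`Prime D`: `D` is nontrivial, centreless and not a product of two commuting nontrivial subgroups, for
example a torsion-free hyperbolic group which is not cyclic.  `ByCyclic C D`: all groups with a
homomorphism to `ℤ` with kernel isomorphic to `D` are in `C`; for the class above and a torsion-free
hyperbolic group `D` this is a theorem of Bestvina, Fujiwara and Wigglesworth.

Outline of the proof.  An automorphism of a restricted direct product of groups with `Prime` permutes
the factors: for an automorphism `α` and factors `i, j` the map from `D i` through the factor `j` and
back is an idempotent endomorphism whose kernel and image commute.  Over an infinite cyclic subgroup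
of `Q` the factors in an infinite orbit give a restricted wreath product of a factor with `ℤ`, which
is a directed colimit of subgroups of finite wreath products; the factors in a finite orbit give,
after passing to a subgroup of finite index, groups with kernel `D i` and infinite cyclic quotient.
-/

set_option autoImplicit false

namespace Pool.Agent.Results.MP_551055_al.DirectSumKernels

open Pool.Agent.Y462.SS Pool.Agent.Q152.WP

/-- (1) Let `C` be a class of groups with the closure properties `Closed C` and `ExtClosed C`.  Let
`D i` be groups, in any number, which are nontrivial, centreless and not products of two commuting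
nontrivial subgroups, and such that all `D i`-by-cyclic groups are in `C`.  If `G` has a homomorphism
onto a group `Q` of `C` and the kernel is isomorphic to the restricted direct product of the groups
`D i`, then `G` is in `C`.
(2) If moreover `Q` and all `D i` are torsion-free, then `G` is torsion-free. -/
theorem result :
    (∀ C : ∀ (G : Type) [Group G], Prop, Closed C → ExtClosed C →
      ∀ (ι : Type) (D : ι → Type) [∀ i, Group (D i)], (∀ i, Prime (D i)) →
        (∀ i, ByCyclic C (D i)) →
        ∀ (G Q : Type) [Group G] [Group Q] (f : G →* Q), Function.Surjective f → C Q →
          Nonempty (f.ker ≃* FS D) → C G) ∧
    (∀ (ι : Type) (D : ι → Type) [∀ i, Group (D i)],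
      (∀ i, ∀ u : D i, IsOfFinOrder u → u = 1) →
        ∀ (G Q : Type) [Group G] [Group Q] (f : G →* Q), (∀ q : Q, IsOfFinOrder q → q = 1) →
          Nonempty (f.ker ≃* FS D) → ∀ g : G, IsOfFinOrder g → g = 1) := by
  refine ⟨?_, ?_⟩
  · rintro C hC hE ι D _ hD hcy G Q _ _ f hf hQ ⟨e⟩
    exact direct_sum hC hE f hf hQ ((FS.dec D).trans e) hD hcy
  · rintro ι D _ hD G Q _ _ f hQ ⟨e⟩ g hg
    exact ext_torsionFree f hQ ((FS.dec D).trans e) hD g hg

end Pool.Agent.Results.MP_551055_al.DirectSumKernels
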