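import Pool.Agent.Q143.MV.PermFJ

/-!
# Groups that permute the factors of a free product

`Closed C` (`Pool.Agent.Y462.SS.Base`): the class `C` of groups contains `ℤ` and is closed under
groups that embed, finite products, free products, overgroups of finite index and colimits of directed
systems.  `ExtClosed C` (`Pool.Agent.Q152.WP.Perm`): if `G` maps onto a group `Q` of `C`, and the
kernel and the preimages of all infinite cyclic subgroups of `Q` are in `C`, then `G` is in `C`.  These
properties are known for the class of the groups which satisfy the `K`-theoretic Farrell–Jones
conjecture with coefficients in additive categories and finite wreath products.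

`Twist Q X K` (`Pool.Agent.Q143.AR.Tw`): an action of the group `Q` on the free product of copies of
the group `K`, indexed by the set `X`, which permutes the copies; the element `q` maps the copy with
index `x` to the copy with index `q x` by the map `c(q, x) : K → K`.  `T.TW` is the semidirect product.
`vx T x` is the subgroup generated by the copy of `K` with index `x` and the stabilizer `Q_x` of `x` in
`Q`, the semidirect product of `K` and `Q_x`.
-/

set_option autoImplicit false

namespace Pool.Agent.Results.MP_551055_al.PermutedCopies

open Pool.Agent.Y462.SS Pool.Agent.Q152.WP Pool.Agent.Q143.AR Pool.Agent.Q143.MV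

/-- Let `C` be a class of groups with the closure properties `Closed C` and `ExtClosed C`, and let `Q`
act on the free product of copies of `K` indexed by `X`, permuting the copies.  The semidirect product
of the free product and `Q` is in `C` (is torsion-free) if and only if `Q` and the semidirect products
of the copies of `K` and their stabilizers in `Q` are in `C` (are torsion-free). -/
theorem result (C : ∀ (G : Type) [Group G], Prop) (hC : Closed C) (hE : ExtClosed C)
    (Q X K : Type) [Group Q] [Group K] (T : Twist Q X K) :
    (C T.TW ↔ C Q ∧ ∀ x, C (vx T x)) ∧
    ((∀ g : T.TW, IsOfFinOrder g → g = 1) ↔
      (∀ g : Q, IsOfFinOrder g → g = 1) ∧ ∀ x, ∀ g : vx T x, IsOfFinOrder g → g = 1) :=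
  ⟨perm_mem T hC hE, perm_tf T⟩

end Pool.Agent.Results.MP_551055_al.PermutedCopies
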