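import Pool.Agent.Q99.FU.RC

/-!
# Farrell–Jones groups of units modulo ideals with local units

`Closed C` (`Pool.Agent.Y462.SS.Base`): the class `C` of groups contains `ℤ` and is closed under
groups that embed, finite products, free products, overgroups of finite index and colimits of directed
systems with arbitrary structure maps.  `ExtClosed C` (`Pool.Agent.Q152.WP.Perm`): if `G` maps onto a
group `Q` of `C`, and the kernel and the preimages of all infinite cyclic subgroups of `Q` are in `C`,
then `G` is in `C`.  All these properties are known for the class of the groups which satisfy the
K-theoretic Farrell–Jones conjecture with coefficients and finite wreath products; for the torsion-free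
groups of this class all finitely generated projective modules over the integral group ring are stably
free.

Outline of the proof.  Let `p` be an idempotent of `I`, `u` a unit of `R`, `q = u p u⁻¹`.  There are
`s`, `t` in `I` such that `t s = p` and the idempotent `e = s t` is orthogonal to `p` and `q`.  Then
`W = 1 - q - e + u t + s u⁻¹` and `Z = 1 - p - e + t + s` are involutions congruent to `1` modulo `I`,
and the unit `n = W Z` satisfies `n p = u p` and `p n⁻¹ = p u⁻¹`, hence `n x n⁻¹ = u x u⁻¹` for all
units `x` with `x - 1` in `p R p`.  So `u` acts on the group of the units congruent to `1` modulo `I`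
by a locally inner automorphism, and this group is the directed union of the groups of units of the
corners.  The rest is the theorem on limits of automorphisms (`Pool.Agent.Q105.FJ.real_kernel`).
-/

set_option autoImplicit false

namespace Pool.Agent.Results.MP_551055_al.UnitsModuloIdeals

open Pool.Agent.Y462.SS Pool.Agent.Q152.WP Pool.Agent.Q99.FU

/-- The subgroup `H` belongs to the class `C`. -/
def In (C : ∀ (G : Type) [Group G], Prop) {Γ : Type} [Group Γ] (H : Subgroup Γ) : Prop := C H

/-- The image of a group `G` of units of `R` modulo the units congruent to `1` modulo `I`. -/
abbrev ModI {R : Type} [Ring R] (I : TwoSidedIdeal R) (G : Subgroup Rˣ) : Subgroup (Rˣ ⧸ NU I) :=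
  G.map (QuotientGroup.mk' (NU I))

/-- The conclusion for an ideal `I` of a ring. -/
def Concl (C : ∀ (G : Type) [Group G], Prop) {R : Type} [Ring R] (I : TwoSidedIdeal R) : Prop :=
  In C (NU I) ∧ LocInn (NU I) ∧ ∀ G : Subgroup Rˣ, In C (ModI I G) → In C G

/-- Let `C` be a class of groups with the properties `Closed` and `ExtClosed`.
(1) Let `I` be a two-sided ideal of a ring `R` and `P` a set of idempotents of `I` such that every
finite subset of `I` is contained in `p R p` for some `p ∈ P`, for every `p ∈ P` there are `s, t ∈ I`
with `t s = p`, `p s = 0 = t p`, and the groups of the units `g` with `g - 1 ∈ p R p` are in `C`.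
Then the group `NU I` of the units congruent to `1` modulo `I` is in `C`, every unit of `R` acts on it
by a locally inner automorphism, and a group of units of `R` is in `C` if its image modulo `NU I` is.
(2) Let `S` be a ring such that all the groups `GL_n(S)` are in `C`, and `X` an infinite set.  Then the
conclusions of (1) hold for the ideal of the matrices with finitely many nonzero entries in the ring
of the row- and column-finite matrices over `S` with index set `X`: the invertible matrices which
differ from the identity matrix in finitely many entries form a group in `C`, and a group `G` of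
invertible matrices is in `C` if its image modulo this group is. -/
theorem result (C : ∀ (G : Type) [Group G], Prop) (hC : Closed C) (hE : ExtClosed C) :
    (∀ (R : Type) [Ring R] (I : TwoSidedIdeal R) (P : Set R), Loc I P → (∀ p ∈ P, In C (CU p)) →
      Concl C I) ∧
    (∀ (S X : Type) [Ring S] [Infinite X], (∀ n : ℕ, C (Matrix (Fin n) (Fin n) S)ˣ) →
      Concl C (FinI S X)) :=
  ⟨fun _ _ _ _ h hP => ⟨NU_mem hC h hP, NU_loc h, units_mem hC hE h hP⟩,
    fun _ _ _ _ hS => ⟨NU_mem hC loc (by
      rintro _ ⟨F, rfl⟩
      exact corner_mem hC hS F), NU_loc loc, rcf_mem hC hE hS⟩⟩

end Pool.Agent.Results.MP_551055_al.UnitsModuloIdeals
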